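import Pool.Agent.H73.GWQ.Stmts

/-! Project GWQ, row C1Q (words passing a given pair of vertices of the tree backwards). -/

set_option autoImplicit false

open Classical

namespace GWQ

variable {ι G V : Type*} [Fintype ι] [Group G] (C : QCode ι G V)

theorem C1Q (S : Type*) [Fintype S] (hPAQ : PAQStmt V) : C1QStmt C S := by
  intro e D hD hed κ A hκ0 hκ1 hA hT L θ Q P hθ hQP
  have hne : Q ≠ P := by
    rintro rfl
    have h0 : C.T.dist Q Q = 0 := SimpleGraph.dist_self
    omega
  obtain ⟨q, hq⟩ : ∃ q : ℝ, q = (Fintype.card S : ℝ) := ⟨_, rfl⟩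
  have hq0 : 0 ≤ q := by rw [hq]; exact Nat.cast_nonneg _
  -- the indicator of a type
  obtain ⟨ind, hind⟩ : ∃ ind : List S → ℝ,
      ind = fun z => if ∃ h : G, C.T.dist (C.f h) Q ≤ D ∧
        C.T.dist (C.f (h * GWP.ev e z)) P ≤ D then (1 : ℝ) else 0 := ⟨_, rfl⟩
  have hind0 : ∀ z, 0 ≤ ind z := by
    intro z
    rw [hind]
    dsimp only
    split_ifs
    · exact zero_le_one
    · exact le_rfl
  obtain ⟨F, hF⟩ : ∃ F : ℕ × ℕ → List S → ℝ, F = fun i b =>
      if i.1 + i.2 ≤ L ∧ θ ≤ D * i.2 then
        ind ((b.drop i.1).take i.2) else 0 := ⟨_, rfl⟩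
  have hF0 : ∀ i b, 0 ≤ F i b := by
    intro i b
    rw [hF]
    dsimp only
    split_ifs
    · exact hind0 _
    · exact le_rfl
  obtain ⟨T, hTd⟩ : ∃ T : Finset (ℕ × ℕ),
      T = Finset.range (L + 1) ×ˢ Finset.range (L + 1) := ⟨_, rfl⟩
  obtain ⟨B, hB⟩ : ∃ B : ℝ, B = A * κ ^ (θ / D) * q ^ L := ⟨_, rfl⟩
  have hB0 : 0 ≤ B := by
    rw [hB]
    positivity
  -- each term
  have hterm : ∀ i ∈ T, GWP.wsum L (F i) ≤ B := by
    intro i hi
    rw [hTd, Finset.mem_product, Finset.mem_range, Finset.mem_range] at hi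
    obtain ⟨j, r⟩ := i
    dsimp only at hi
    by_cases hc : j + r ≤ L ∧ θ ≤ D * r
    · obtain ⟨s, hs⟩ : ∃ s : ℕ, L = j + (r + s) := ⟨L - j - r, by omega⟩
      have h1 : GWP.wsum L (F (j, r)) =
          GWP.wsum j (fun _ : List S => GWP.wsum r (fun z : List S =>
            q ^ s * ind z)) := by
        rw [hs, GWP.wsum_append]
        refine GWP.wsum_congr _ _ _ ?_
        intro u hu
        rw [GWP.wsum_append]
        refine GWP.wsum_congr _ _ _ ?_
        intro z hz
        have h2 : ∀ v : List S, F (j, r) (u ++ (z ++ v)) = ind z := by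
          intro v
          rw [hF]
          dsimp only
          rw [if_pos hc]
          congr 1
          rw [← hu, List.drop_left, ← hz, List.take_left]
        rw [show (fun v : List S => F (j, r) (u ++ (z ++ v))) =
          fun _ => ind z from funext h2, GWP.wsum_const, hq]
        ring
      rw [h1, GWP.wsum_const, GWP.wsum_mul, ← hq]
      have h3 : GWP.wsum r (fun z : List S => ind z) ≤ A * κ ^ r * q ^ r := by
        rw [hind, hq]
        exact hT r Q P
      have h4 : κ ^ r ≤ κ ^ (θ / D) :=
        pow_le_pow_of_le_one hκ0.le hκ1.le (Nat.div_le_of_le_mul hc.2)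
      calc q ^ s * GWP.wsum r (fun z : List S => ind z) * q ^ j
          ≤ q ^ s * (A * κ ^ r * q ^ r) * q ^ j := by gcongr
        _ = A * κ ^ r * q ^ L := by rw [hs, pow_add, pow_add]; ring
        _ ≤ A * κ ^ (θ / D) * q ^ L := by gcongr
        _ = B := hB.symm
    · have h1 : F (j, r) = fun _ => 0 := by
        funext b
        rw [hF]
        dsimp only
        rw [if_neg hc]
      rw [h1, GWP.wsum_const, zero_mul]
      exact hB0
  -- the indicator is at most the sum
  have hmain : GWP.wsum L (fun b : List S => if ∃ g : G,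
        C.T.dist (C.f g) Q + C.T.dist Q P + C.T.dist P (C.f (g * GWP.ev e b)) =
          C.T.dist (C.f g) (C.f (g * GWP.ev e b))
        then (1 : ℝ) else 0) ≤ GWP.wsum L (fun b : List S => ∑ i ∈ T, F i b) := by
    refine GWP.wsum_le L _ _ ?_
    intro b hb
    by_cases hc : ∃ g : G,
        C.T.dist (C.f g) Q + C.T.dist Q P + C.T.dist P (C.f (g * GWP.ev e b)) =
          C.T.dist (C.f g) (C.f (g * GWP.ev e b))
    · rw [if_pos hc]
      obtain ⟨g, hg⟩ := hc
      have hstep : ∀ i < L, C.T.dist (C.f (g * GWP.ev e (b.take i)))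
          (C.f (g * GWP.ev e (b.take (i + 1)))) ≤ D := by
        intro i hi
        have hi' : i < b.length := by omega
        rw [List.take_add_one, List.getElem?_eq_getElem hi', Option.toList_some,
          GWP.ev_append, GWP.ev_cons, GWP.ev_nil, mul_one, ← mul_assoc]
        exact hed _ _
      obtain ⟨i, j, hij, hj, h1, h2, h3⟩ := hPAQ C.T C.tree
        (fun i => C.f (g * GWP.ev e (b.take i))) L D Q P hne hstep (by
          rw [List.take_zero, GWP.ev_nil, mul_one, ← hb, List.take_length]
          exact hg)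
      have hsplit : b.take j = b.take i ++ (b.drop i).take (j - i) := by
        rw [← List.take_add]
        congr 1
        omega
      have hi : (i, j - i) ∈ T := by
        rw [hTd, Finset.mem_product, Finset.mem_range, Finset.mem_range]
        dsimp only
        omega
      have hF1 : F (i, j - i) b = 1 := by
        rw [hF]
        dsimp only
        rw [if_pos ⟨by omega, hQP.trans h3⟩, hind]
        dsimp only
        rw [if_pos]
        refine ⟨g * GWP.ev e (b.take i), h1, ?_⟩
        rw [mul_assoc, ← GWP.ev_append, ← hsplit]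
        exact h2
      calc (1 : ℝ) = F (i, j - i) b := hF1.symm
        _ ≤ ∑ i ∈ T, F i b :=
            Finset.single_le_sum (f := fun i => F i b) (fun i _ => hF0 i b) hi
    · rw [if_neg hc]
      exact Finset.sum_nonneg fun i _ => hF0 i b
  refine hmain.trans ?_
  rw [GWP.wsum_finset]
  refine (Finset.sum_le_sum hterm).trans ?_
  rw [Finset.sum_const, hTd, Finset.card_product,
    Finset.card_range, nsmul_eq_mul, hB, hq]
  push_cast
  apply le_of_eq
  ring

end GWQ
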